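import Mathlib
import Pool.Agent.Lib.MP_d81877_alP.Bridge

/-!
MP_d81877_al, part D, T-side: insertion of an element into the increasing cycle, and the
conjugate of the cycle under the exchange of two adjacent elements.
-/

namespace MP_d81877_alP15

open Finset Function MP_d81877_alP

section List

variable {α : Type*} [DecidableEq α]

theorem swap3 {a x w : α} (hax : a ≠ x) (haw : a ≠ w) (hxw : x ≠ w) :
    Equiv.swap a x * Equiv.swap x w = Equiv.swap x w * Equiv.swap a w := by
  rw [Equiv.mul_swap_eq_swap_mul (Equiv.swap x w) a w, Equiv.swap_apply_right,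
    Equiv.swap_apply_of_ne_of_ne hax haw]

theorem swap_disj {a b x w : α} (hax : a ≠ x) (haw : a ≠ w) (hbx : b ≠ x) (hbw : b ≠ w) :
    Equiv.swap a b * Equiv.swap x w = Equiv.swap x w * Equiv.swap a b := by
  rw [Equiv.mul_swap_eq_swap_mul (Equiv.swap x w) a b, Equiv.swap_apply_of_ne_of_ne hax haw,
    Equiv.swap_apply_of_ne_of_ne hbx hbw]

/-- insertion before `w` -/
theorem formPerm_insert_mid (x w : α) (l2 : List α) : ∀ l1 : List α,
    (l1 ++ x :: w :: l2).Nodup →
    (l1 ++ x :: w :: l2).formPerm = Equiv.swap x w * (l1 ++ w :: l2).formPerm := by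
  intro l1
  induction l1 with
  | nil =>
    intro _
    rw [List.nil_append, List.nil_append, List.formPerm_cons_cons]
  | cons a l1 ih =>
    intro h
    have h1 : (l1 ++ x :: w :: l2).Nodup := (List.nodup_cons.1 h).2
    have ha : a ∉ l1 ++ x :: w :: l2 := (List.nodup_cons.1 h).1
    have hax : a ≠ x := fun h => ha (by rw [h]; simp)
    have haw : a ≠ w := fun h => ha (by rw [h]; simp)
    have hxw : x ≠ w := by
      intro h
      rw [List.nodup_append] at h1
      rw [h] at h1
      simp at h1
    cases l1 with
    | nil =>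
      simp only [List.cons_append, List.nil_append]
      rw [List.formPerm_cons_cons, List.formPerm_cons_cons, List.formPerm_cons_cons, ← mul_assoc,
        swap3 hax haw hxw, mul_assoc]
    | cons b l1 =>
      have hb : b ∉ l1 ++ x :: w :: l2 := (List.nodup_cons.1 h1).1
      have hbx : b ≠ x := fun h => hb (by rw [h]; simp)
      have hbw : b ≠ w := fun h => hb (by rw [h]; simp)
      have ih1 := ih h1
      simp only [List.cons_append] at ih1 ⊢
      rw [List.formPerm_cons_cons, ih1, List.formPerm_cons_cons, ← mul_assoc, ← mul_assoc,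
        swap_disj hax haw hbx hbw]

/-- insertion at the end -/
theorem formPerm_insert_end (x w : α) (l : List α) (h : (x :: w :: l).Nodup) :
    ((w :: l) ++ [x]).formPerm = Equiv.swap x w * (w :: l).formPerm := by
  have h1 := List.formPerm_rotate_one (x :: w :: l) h
  rw [List.rotate_cons_succ, List.rotate_zero] at h1
  rw [h1, List.formPerm_cons_cons]

theorem formPerm_map_conj (s : Equiv.Perm α) : ∀ l : List α,
    (l.map s).formPerm = s * l.formPerm * s⁻¹
  | [] => by simp
  | [a] => by simp
  | a :: b :: l => by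
    have ih := formPerm_map_conj s (b :: l)
    simp only [List.map_cons] at ih ⊢
    rw [List.formPerm_cons_cons, ih, List.formPerm_cons_cons, ← mul_assoc, ← mul_assoc,
      ← mul_assoc, Equiv.mul_swap_eq_swap_mul]

end List

variable {ι : Type*} [LinearOrder ι]

theorem sort_eq_of_pairwise {l : List ι} {C : Finset ι} (hn : l.Nodup) (hC : l.toFinset = C)
    (hp : l.Pairwise (· ≤ ·)) : C.sort (· ≤ ·) = l := by
  rw [← hC]
  exact (List.toFinset_sort (· ≤ ·) hn).2 hp

theorem sort_split {C : Finset ι} {x : ι} (hx : x ∉ C) :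
    C.sort (· ≤ ·) = (C.filter (· < x)).sort (· ≤ ·) ++ (C.filter (x < ·)).sort (· ≤ ·) := by
  apply sort_eq_of_pairwise
  · rw [List.nodup_append]
    refine ⟨Finset.sort_nodup _ _, Finset.sort_nodup _ _, ?_⟩
    intro a ha b hb hab
    rw [Finset.mem_sort, Finset.mem_filter] at ha hb
    rw [hab] at ha
    exact absurd (lt_trans ha.2 hb.2) (lt_irrefl _)
  · ext y
    simp only [List.mem_toFinset, List.mem_append, Finset.mem_sort, Finset.mem_filter]
    constructor
    · rintro (h | h) <;> exact h.1
    · intro h
      rcases lt_trichotomy y x with h1 | h1 | h1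
      · exact Or.inl ⟨h, h1⟩
      · exact absurd (h1 ▸ h) hx
      · exact Or.inr ⟨h, h1⟩
  · rw [List.pairwise_append]
    refine ⟨Finset.pairwise_sort _ _, Finset.pairwise_sort _ _, ?_⟩
    intro a ha b hb
    rw [Finset.mem_sort, Finset.mem_filter] at ha hb
    exact (lt_trans ha.2 hb.2).le

theorem sort_insert_split {C : Finset ι} {x : ι} (hx : x ∉ C) :
    (insert x C).sort (· ≤ ·)
      = (C.filter (· < x)).sort (· ≤ ·) ++ x :: (C.filter (x < ·)).sort (· ≤ ·) := by
  apply sort_eq_of_pairwise
  · rw [List.nodup_append]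
    refine ⟨Finset.sort_nodup _ _, ?_, ?_⟩
    · rw [List.nodup_cons]
      refine ⟨?_, Finset.sort_nodup _ _⟩
      rw [Finset.mem_sort, Finset.mem_filter]
      exact fun h => hx h.1
    · intro a ha b hb hab
      rw [Finset.mem_sort, Finset.mem_filter] at ha
      rw [List.mem_cons, Finset.mem_sort, Finset.mem_filter] at hb
      rw [hab] at ha
      rcases hb with hb | hb
      · rw [hb] at ha
        exact lt_irrefl _ ha.2
      · exact absurd (lt_trans ha.2 hb.2) (lt_irrefl _)
  · ext y
    simp only [List.mem_toFinset, List.mem_append, List.mem_cons, Finset.mem_sort,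
      Finset.mem_filter, Finset.mem_insert]
    constructor
    · rintro (h | h | h)
      · exact Or.inr h.1
      · exact Or.inl h
      · exact Or.inr h.1
    · rintro (h | h)
      · exact Or.inr (Or.inl h)
      · rcases lt_trichotomy y x with h1 | h1 | h1
        · exact Or.inl ⟨h, h1⟩
        · exact Or.inr (Or.inl h1)
        · exact Or.inr (Or.inr ⟨h, h1⟩)
  · rw [List.pairwise_append]
    refine ⟨Finset.pairwise_sort _ _, ?_, ?_⟩
    · rw [List.pairwise_cons]
      refine ⟨?_, Finset.pairwise_sort _ _⟩
      intro b hb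
      rw [Finset.mem_sort, Finset.mem_filter] at hb
      exact hb.2.le
    · intro a ha b hb
      rw [Finset.mem_sort, Finset.mem_filter] at ha
      rw [List.mem_cons, Finset.mem_sort, Finset.mem_filter] at hb
      rcases hb with hb | hb
      · rw [hb]
        exact ha.2.le
      · exact (lt_trans ha.2 hb.2).le

/-- the next element of `C` after `x` (cyclically) -/
def nx (C : Finset ι) (x : ι) : ι :=
  if h : (C.filter (x < ·)).Nonempty then (C.filter (x < ·)).min' h
  else if h' : C.Nonempty then C.min' h' else x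

theorem nx_mem {C : Finset ι} (hC : C.Nonempty) (x : ι) : nx C x ∈ C := by
  unfold nx
  by_cases h : (C.filter (x < ·)).Nonempty
  · rw [dif_pos h]
    exact (Finset.mem_filter.1 (Finset.min'_mem _ h)).1
  · rw [dif_neg h, dif_pos hC]
    exact Finset.min'_mem _ _

theorem nx_congr {C : Finset ι} {x y : ι} (h : ∀ z ∈ C, x < z ↔ y < z) (hC : C.Nonempty) :
    nx C x = nx C y := by
  have h1 : C.filter (x < ·) = C.filter (y < ·) := Finset.filter_congr h
  unfold nx
  simp only [h1, hC, dif_pos]

theorem min'_of_sort {U : Finset ι} (h : U.Nonempty) {w : ι} {l : List ι}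
    (hl : U.sort (· ≤ ·) = w :: l) : U.min' h = w := by
  apply le_antisymm
  · apply Finset.min'_le
    rw [← Finset.mem_sort (· ≤ ·), hl]
    simp
  · apply Finset.le_min'
    intro y hy
    rw [← Finset.mem_sort (· ≤ ·), hl] at hy
    have := Finset.pairwise_sort U (· ≤ ·)
    rw [hl, List.pairwise_cons] at this
    rcases List.mem_cons.1 hy with rfl | hy
    · exact le_rfl
    · exact this.1 y hy

/-- **insertion into the cycle** -/
theorem cyc_insert {C : Finset ι} (hC : C.Nonempty) {x : ι} (hx : x ∉ C) :
    cyc (insert x C) = Equiv.swap x (nx C x) * cyc C := by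
  unfold cyc
  have hs := sort_split hx
  have hi := sort_insert_split hx
  have hnd : ((insert x C).sort (· ≤ ·)).Nodup := Finset.sort_nodup _ _
  by_cases h : (C.filter (x < ·)).Nonempty
  · have hnx : nx C x = (C.filter (x < ·)).min' h := by
      unfold nx
      rw [dif_pos h]
    cases hl : (C.filter (x < ·)).sort (· ≤ ·) with
    | nil =>
      exfalso
      obtain ⟨y, hy⟩ := h
      rw [← Finset.mem_sort (· ≤ ·), hl] at hy
      simp at hy
    | cons w l2 =>
      rw [hnx, min'_of_sort h hl, hi, hs, hl]
      rw [hi, hl] at hnd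
      exact formPerm_insert_mid x w l2 _ hnd
  · have hnx : nx C x = C.min' hC := by
      unfold nx
      rw [dif_neg h, dif_pos hC]
    rw [Finset.not_nonempty_iff_eq_empty] at h
    rw [h, Finset.sort_empty] at hi
    rw [h, Finset.sort_empty, List.append_nil] at hs
    cases hl : C.sort (· ≤ ·) with
    | nil =>
      exfalso
      obtain ⟨y, hy⟩ := hC
      rw [← Finset.mem_sort (· ≤ ·), hl] at hy
      simp at hy
    | cons w l1 =>
      rw [hnx, min'_of_sort hC hl, hi, ← hs, hl]
      apply formPerm_insert_end
      rw [hi, ← hs, hl, List.nodup_append] at hnd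
      rw [List.nodup_cons]
      refine ⟨fun h => ?_, hnd.1⟩
      exact hnd.2.2 x h x (by simp) rfl

theorem cyc_empty : cyc (∅ : Finset ι) = 1 := by
  unfold cyc
  rw [Finset.sort_empty]
  rfl

theorem cyc_singleton (x : ι) : cyc ({x} : Finset ι) = 1 := by
  unfold cyc
  rw [Finset.sort_singleton]
  rfl

theorem nx_singleton (w x : ι) : nx ({w} : Finset ι) x = w := by
  have := nx_mem (Finset.singleton_nonempty w) x
  rw [Finset.mem_singleton] at this
  exact this

theorem cyc_pair {x y : ι} (h : x ≠ y) : cyc ({x, y} : Finset ι) = Equiv.swap x y := by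
  have h1 : ({x, y} : Finset ι) = insert x {y} := rfl
  rw [h1, cyc_insert (Finset.singleton_nonempty y) (by rw [Finset.mem_singleton]; exact h),
    nx_singleton, cyc_singleton, mul_one]

/-- an exchange of two adjacent elements, not both in `C`, conjugates the cycle of `C` into the
cycle of its image -/
theorem cyc_image {C : Finset ι} {x y : ι} (hxy : x < y)
    (hadj : ∀ z ∈ C, ¬ (x < z ∧ z < y)) (hC : ¬ (x ∈ C ∧ y ∈ C)) :
    cyc (C.image (Equiv.swap x y)) = Equiv.swap x y * cyc C * Equiv.swap x y := by
  have hmono : StrictMonoOn (Equiv.swap x y) (C : Set ι) := by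
    intro a ha b hb hab
    have ha' : a ∈ C := ha
    have hb' : b ∈ C := hb
    by_cases h1 : a = x
    · have h2 : b ≠ x := fun h => absurd (h ▸ h1 ▸ hab) (lt_irrefl _)
      have h3 : b ≠ y := fun h => hC ⟨h1 ▸ ha', h ▸ hb'⟩
      rw [h1, Equiv.swap_apply_left, Equiv.swap_apply_of_ne_of_ne h2 h3]
      rcases lt_trichotomy b y with h4 | h4 | h4
      · exact absurd ⟨h1 ▸ hab, h4⟩ (hadj b hb')
      · exact absurd h4 h3
      · exact h4
    · by_cases h2 : a = y
      · have h3 : b ≠ y := fun h => absurd (h ▸ h2 ▸ hab) (lt_irrefl _)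
        have h4 : b ≠ x := fun h => hC ⟨h ▸ hb', h2 ▸ ha'⟩
        rw [h2, Equiv.swap_apply_right, Equiv.swap_apply_of_ne_of_ne h4 h3]
        exact lt_trans hxy (h2 ▸ hab)
      · rw [Equiv.swap_apply_of_ne_of_ne h1 h2]
        by_cases h3 : b = x
        · rw [h3, Equiv.swap_apply_left]
          exact lt_trans (h3 ▸ hab) hxy
        · by_cases h4 : b = y
          · rw [h4, Equiv.swap_apply_right]
            rcases lt_trichotomy a x with h5 | h5 | h5
            · exact h5
            · exact absurd h5 h1
            · exact absurd ⟨h5, h4 ▸ hab⟩ (hadj a ha')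
          · rw [Equiv.swap_apply_of_ne_of_ne h3 h4]
            exact hab
  have hmap : (C.image (Equiv.swap x y)).sort (· ≤ ·) = (C.sort (· ≤ ·)).map (Equiv.swap x y) := by
    apply sort_eq_of_pairwise
    · exact (Finset.sort_nodup C (· ≤ ·)).map (Equiv.swap x y).injective
    · ext z
      simp only [List.mem_toFinset, List.mem_map, Finset.mem_sort, Finset.mem_image]
    · rw [List.pairwise_map]
      have h1 := Finset.pairwise_sort C (· ≤ ·)
      refine h1.imp_of_mem ?_
      intro a b ha hb hab
      rw [Finset.mem_sort] at ha hb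
      exact hmono.monotoneOn ha hb hab
  unfold cyc
  rw [hmap, formPerm_map_conj, Equiv.swap_inv]

end MP_d81877_alP15
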