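import Mathlib
import Pool.Agent.Lib.MP_d81877_alP15.Cyc

/-!
MP_d81877_al, part D, T1: telescoping sums along the increasing cycle.
-/

namespace MP_d81877_alP15

open Finset Function MP_d81877_alP

theorem tele_list {α K : Type*} [DecidableEq α] [Ring K] [CharP K 2] (L : List α)
    (hL : L.Nodup) (hpos : 0 < L.length) (φ : α → K) : ∀ k : ℕ, k ≤ L.length →
      ((L.take k).map (fun y => φ y + φ (L.formPerm y))).sum
        = φ L[0] + φ (L[k % L.length]'(Nat.mod_lt _ hpos)) := by
  intro k
  induction k with
  | zero =>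
    intro _
    simp only [List.take_zero, List.map_nil, List.sum_nil, Nat.zero_mod]
    rw [CharTwo.add_self_eq_zero]
  | succ k ih =>
    intro hk
    have hk' : k < L.length := hk
    have h1 := ih hk'.le
    have h2 : k % L.length = k := Nat.mod_eq_of_lt hk'
    have h3 : L.take (k + 1) = L.take k ++ [L[k]] := by
      rw [List.take_concat_get' L k hk']
    rw [h3, List.map_append, List.sum_append, h1]
    simp only [List.map_cons, List.map_nil, List.sum_cons, List.sum_nil, add_zero, h2]
    rw [List.formPerm_apply_getElem L hL k hk']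
    have h4 : φ L[k] + φ L[k] = 0 := CharTwo.add_self_eq_zero _
    calc φ L[0] + φ L[k] + (φ L[k] + φ (L[(k + 1) % L.length]'(Nat.mod_lt _ hpos)))
        = φ L[0] + (φ L[k] + φ L[k]) + φ (L[(k + 1) % L.length]'(Nat.mod_lt _ hpos)) := by abel
      _ = φ L[0] + φ (L[(k + 1) % L.length]'(Nat.mod_lt _ hpos)) := by rw [h4, add_zero]

variable {ι K : Type*} [LinearOrder ι]

theorem nx_empty (x : ι) : nx (∅ : Finset ι) x = x := by
  unfold nx
  simp

/-- **telescoping** -/
theorem tele [Ring K] [CharP K 2] {C : Finset ι} (hC : C.Nonempty) {x : ι} (hx : x ∉ C)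
    (φ : ι → K) :
    ∑ y ∈ C.filter (· < x), (φ y + φ (cyc C y)) = φ (C.min' hC) + φ (nx C x) := by
  have hs := sort_split hx
  have hpos : 0 < (C.sort (· ≤ ·)).length := by
    rw [Finset.length_sort]
    exact Finset.card_pos.2 hC
  set l1 := (C.filter (· < x)).sort (· ≤ ·) with hl1
  set l2 := (C.filter (x < ·)).sort (· ≤ ·) with hl2
  have hle : l1.length ≤ (C.sort (· ≤ ·)).length := by
    rw [hs, List.length_append]
    omega
  have h1 := tele_list (K := K) (C.sort (· ≤ ·)) (Finset.sort_nodup _ _) hpos φ l1.length hle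
  have h2 : (C.sort (· ≤ ·)).take l1.length = l1 := by
    rw [hs, List.take_left']
    rfl
  rw [h2] at h1
  have h3 : ∑ y ∈ C.filter (· < x), (φ y + φ (cyc C y))
      = (l1.map (fun y => φ y + φ ((C.sort (· ≤ ·)).formPerm y))).sum := by
    rw [← List.sum_toFinset _ (Finset.sort_nodup _ _), Finset.sort_toFinset]
    rfl
  rw [h3, h1]
  have h4 : (C.sort (· ≤ ·))[0] = C.min' hC := (Finset.min'_eq_sorted_zero).symm
  rw [h4]
  congr 2
  cases hl : l2 with
  | nil =>
    have h5 : (C.sort (· ≤ ·)).length = l1.length := by rw [hs, hl, List.append_nil]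
    have h6 : l1.length % (C.sort (· ≤ ·)).length = 0 := by rw [h5, Nat.mod_self]
    have h7 : ¬ (C.filter (x < ·)).Nonempty := by
      rintro ⟨y, hy⟩
      rw [← Finset.mem_sort (· ≤ ·), ← hl2, hl] at hy
      simp at hy
    have h8 : nx C x = C.min' hC := by
      unfold nx
      rw [dif_neg h7, dif_pos hC]
    rw [h8, ← h4]
    simp only [h6]
  | cons w l =>
    have h7 : (C.filter (x < ·)).Nonempty := by
      refine ⟨w, ?_⟩
      rw [← Finset.mem_sort (· ≤ ·), ← hl2, hl]
      simp
    have h8 : nx C x = w := by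
      unfold nx
      rw [dif_pos h7]
      exact min'_of_sort h7 (hl2.symm.trans hl)
    rw [h8]
    have h9 : l1.length < (C.sort (· ≤ ·)).length := by
      rw [hs, hl, List.length_append, List.length_cons]
      omega
    have h6 : l1.length % (C.sort (· ≤ ·)).length = l1.length := Nat.mod_eq_of_lt h9
    simp only [h6]
    have h10 : (C.sort (· ≤ ·)) = l1 ++ w :: l := by rw [hs, hl]
    simp only [h10]
    rw [List.getElem_append_right (le_refl _)]
    simp

/-- the cycle of `C` sends `y ∈ C` to the next element -/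
theorem cyc_apply {C : Finset ι} {y : ι} (hy : y ∈ C) : cyc C y = nx (C.erase y) y := by
  have hye : y ∉ C.erase y := Finset.notMem_erase _ _
  have hC : C = insert y (C.erase y) := (Finset.insert_erase hy).symm
  by_cases hne : (C.erase y).Nonempty
  · conv_lhs => rw [hC]
    rw [cyc_insert hne hye, Equiv.Perm.mul_apply, cyc_of_notMem hye, Equiv.swap_apply_left]
  · rw [Finset.not_nonempty_iff_eq_empty] at hne
    conv_lhs => rw [hC]
    rw [hne, nx_empty]
    have : (insert y ∅ : Finset ι) = {y} := rfl
    rw [this, cyc_singleton]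
    rfl

/-- removal of an element from the cycle -/
theorem cyc_erase {C : Finset ι} {y : ι} (hy : y ∈ C) :
    cyc (C.erase y) = Equiv.swap y (cyc C y) * cyc C := by
  have hye : y ∉ C.erase y := Finset.notMem_erase _ _
  have hC : C = insert y (C.erase y) := (Finset.insert_erase hy).symm
  by_cases hne : (C.erase y).Nonempty
  · have h1 : cyc C = Equiv.swap y (nx (C.erase y) y) * cyc (C.erase y) := by
      conv_lhs => rw [hC]
      rw [cyc_insert hne hye]
    rw [cyc_apply hy, h1, ← mul_assoc, Equiv.swap_mul_self, one_mul]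
  · rw [Finset.not_nonempty_iff_eq_empty] at hne
    rw [cyc_apply hy, hne, nx_empty, cyc_empty, Equiv.swap_self]
    have h1 : cyc C = 1 := by
      rw [hC, hne]
      exact cyc_singleton y
    rw [h1]
    rfl

theorem cyc_apply_mem {C : Finset ι} {y : ι} (hy : y ∈ C) : cyc C y ∈ C :=
  cyc_maps (Finset.Subset.refl C) y hy

theorem cyc_apply_ne {C : Finset ι} {y : ι} (hy : y ∈ C) (hne : (C.erase y).Nonempty) :
    cyc C y ≠ y := by
  rw [cyc_apply hy]
  intro h
  have := nx_mem hne y
  rw [h] at this
  exact Finset.notMem_erase _ _ this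

theorem cyc_apply_self {C : Finset ι} {y : ι} (hy : y ∈ C) (hne : C.erase y = ∅) :
    cyc C y = y := by
  rw [cyc_apply hy, hne, nx_empty]

/-- the cycle sends the maximum to the minimum -/
theorem cyc_max {C : Finset ι} (hC : C.Nonempty) : cyc C (C.max' hC) = C.min' hC := by
  have hm := Finset.max'_mem C hC
  rw [cyc_apply hm]
  unfold nx
  have h1 : ¬ ((C.erase (C.max' hC)).filter (C.max' hC < ·)).Nonempty := by
    rintro ⟨y, hy⟩
    rw [Finset.mem_filter, Finset.mem_erase] at hy
    exact absurd (Finset.le_max' C y hy.1.2) (not_le.2 hy.2)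
  rw [dif_neg h1]
  by_cases h2 : (C.erase (C.max' hC)).Nonempty
  · rw [dif_pos h2]
    apply le_antisymm
    · obtain ⟨y, hy⟩ := h2
      have hy' := Finset.mem_erase.1 hy
      have hlt : y < C.max' hC := lt_of_le_of_ne (Finset.le_max' C y hy'.2) hy'.1
      apply Finset.min'_le
      rw [Finset.mem_erase]
      refine ⟨?_, Finset.min'_mem _ _⟩
      intro h
      have := Finset.min'_le C y hy'.2
      rw [h] at this
      exact absurd hlt (not_lt.2 this)
    · apply Finset.le_min'
      intro z hz
      exact Finset.min'_le C z (Finset.mem_erase.1 hz).2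
  · rw [dif_neg h2]
    rw [Finset.not_nonempty_iff_eq_empty] at h2
    have h3 : C.min' hC ∈ C := Finset.min'_mem _ _
    by_contra h4
    have : C.min' hC ∈ C.erase (C.max' hC) := Finset.mem_erase.2 ⟨fun h => h4 h.symm, h3⟩
    rw [h2] at this
    simp at this

end MP_d81877_alP15
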