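import Mathlib
import Pool.Agent.Lib.MP_d81877_alP15.Tele
import Pool.Agent.Lib.MP_d81877_alP.Rules
import Pool.Agent.Lib.MP_d81877_alZF.Xi

/-!
MP_d81877_al, part D, T1: `ez + e` kills the image of the map `p`.
-/

namespace MP_d81877_alP15

open Finset Function MP_d81877_alI MP_d81877_alP

section sets

variable {ι : Type*} [DecidableEq ι]

theorem s1 {A B : Finset ι} {x : ι} (_hA : x ∉ A) : A ∩ insert x B = A ∩ B := by grind
theorem s2 {A B : Finset ι} {x : ι} (_hA : x ∉ A) : insert x B \ A = insert x (B \ A) := by grind
theorem s3 {A B : Finset ι} {x : ι} (_hA : x ∉ A) :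
    (A \ insert x B) ∪ (insert x B \ A) = insert x ((A \ B) ∪ (B \ A)) := by grind
theorem s4 {A B : Finset ι} {x y : ι} (_hA : x ∉ A) (_hB : x ∉ B) (_hy : y ∈ B \ A) :
    insert x (insert y A) ∩ B.erase y = A ∩ B := by grind
theorem s5 {A B : Finset ι} {x y : ι} (_hA : x ∉ A) (_hB : x ∉ B) (_hy : y ∈ B \ A) :
    B.erase y \ insert x (insert y A) = (B \ A).erase y := by grind
theorem s6 {A B : Finset ι} {x y : ι} (_hA : x ∉ A) (_hB : x ∉ B) (_hy : y ∈ B \ A) :
    (insert x (insert y A) \ B.erase y) ∪ (B.erase y \ insert x (insert y A))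
      = insert x ((A \ B) ∪ (B \ A)) := by grind
theorem s7 {A B : Finset ι} {x : ι} (_h : x ∈ A \ B) :
    A ∩ insert x B = insert x (A ∩ B) := by grind
theorem s8 {A B : Finset ι} {x : ι} (_h : x ∈ A \ B) : insert x B \ A = B \ A := by grind
theorem s9 {A B : Finset ι} {x : ι} (_h : x ∈ A \ B) :
    (A \ insert x B) ∪ (insert x B \ A) = ((A \ B) ∪ (B \ A)).erase x := by grind
theorem s10 {A B : Finset ι} {x : ι} (_h : x ∈ B \ A) :
    insert x A ∩ B = insert x (A ∩ B) := by grind
theorem s11 {A B : Finset ι} {x : ι} (_h : x ∈ B \ A) :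
    B \ insert x A = (B \ A).erase x := by grind
theorem s12 {A B : Finset ι} {x : ι} (_h : x ∈ B \ A) :
    (insert x A \ B) ∪ (B \ insert x A) = ((A \ B) ∪ (B \ A)).erase x := by grind
theorem s13 {A B : Finset ι} {x y : ι} (_h : x ∈ B \ A) (_hy : y ∈ B \ A) (_hxy : y ≠ x) :
    insert x (insert y A) ∩ B.erase y = insert x (A ∩ B) := by grind
theorem s14 {A B : Finset ι} {x y : ι} (_h : x ∈ B \ A) (_hy : y ∈ B \ A) (_hxy : y ≠ x) :
    B.erase y \ insert x (insert y A) = ((B \ A).erase x).erase y := by grind
theorem s15 {A B : Finset ι} {x y : ι} (_h : x ∈ B \ A) (_hy : y ∈ B \ A) (_hxy : y ≠ x) :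
    (insert x (insert y A) \ B.erase y) ∪ (B.erase y \ insert x (insert y A))
      = ((A \ B) ∪ (B \ A)).erase x := by grind

end sets

section dm

variable {ι K : Type*} [DecidableEq ι] [Field K]

theorem hh_wrong {V F S : Finset ι} {b : ℕ} {v : WW ι K} (hv : Dm V b v) (hSV : S ⊆ V)
    (hFV : F ⊆ V) (hFS : Disjoint F S) (hne : S.card + 2 * F.card ≠ 2 * b + 1)
    (s : Equiv.Perm ι) : hh V F S s v = 0 := by
  unfold hh
  apply Finset.sum_eq_zero
  intro I hI
  rw [Finset.mem_powerset] at hI
  apply hv.shp
  rintro ⟨-, h0, h1, -⟩
  change (V \ (F ∪ I)).card + b = V.card at h0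
  change (V \ (F ∪ (S \ I))).card + (b + 1) = V.card at h1
  have e0 := Finset.card_sdiff_add_card_eq_card (Finset.union_subset hFV (hI.trans hSV))
  have e1 := Finset.card_sdiff_add_card_eq_card
    (Finset.union_subset hFV ((Finset.sdiff_subset (s := S) (t := I)).trans hSV))
  rw [Finset.card_union_of_disjoint (hFS.mono_right hI)] at e0
  rw [Finset.card_union_of_disjoint (hFS.mono_right Finset.sdiff_subset)] at e1
  have e2 := Finset.card_sdiff_add_card_eq_card hI
  omega

end dm

variable {ι K : Type*} [LinearOrder ι] [Field K]

/-- the values of `pm` -/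
theorem pm_val {V A B C F S : Finset ι} (hA : A ⊆ V) (hB : B ⊆ V) (hF : A ∩ B = F)
    (hC : B \ A = C) (hS : (A \ B) ∪ (B \ A) = S) (v : WW ι K) :
    pm V v A B = if C = ∅ then 0 else hh V F S (cyc C) v := by
  subst hF hC hS
  unfold pm
  have h : A ∪ B ⊆ V := Finset.union_subset hA hB
  by_cases hC : B \ A = ∅
  · rw [if_pos hC, if_pos (Or.inl hC)]
  · rw [if_neg hC, if_neg (fun h' => h'.elim hC (fun h'' => h'' h))]

theorem card_sym (A B : Finset ι) :
    ((A \ B) ∪ (B \ A)).card + 2 * (A ∩ B).card = A.card + B.card := by
  have hd : Disjoint (A \ B) (B \ A) := by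
    rw [Finset.disjoint_left]
    intro x hx hx'
    exact (Finset.mem_sdiff.1 hx').2 (Finset.mem_sdiff.1 hx).1
  rw [Finset.card_union_of_disjoint hd]
  have h1 := Finset.card_sdiff_add_card_inter A B
  have h2 := Finset.card_sdiff_add_card_inter B A
  rw [Finset.inter_comm] at h2
  omega

theorem disj_sym (A B : Finset ι) : Disjoint (A ∩ B) ((A \ B) ∪ (B \ A)) := by
  rw [Finset.disjoint_left]
  intro x hx hx'
  grind

/-- `pm` is homogeneous -/
theorem pm_wrong {V A B : Finset ι} {b : ℕ} {v : WW ι K} (hv : Dm V b v)
    (h : A.card + B.card ≠ 2 * b + 1) : pm V v A B = 0 := by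
  unfold pm
  split_ifs with h1
  · rfl
  · rw [not_or, not_not] at h1
    apply hh_wrong hv
    · intro x hx
      apply h1.2
      grind
    · intro x hx
      apply h1.2
      grind
    · exact disj_sym A B
    · rw [card_sym]
      exact h

/-- removal of an element from the cycle, in terms of a potential -/
theorem rem_val [CharP K 2] {V F S C : Finset ι} {v : WW ι K} {φ : ι → K}
    (hφ : ∀ x ∈ S, ∀ y ∈ S, x ≠ y → hh V F S (Equiv.swap x y * cyc C) v = φ x + φ y)
    (hCS : C ⊆ S) {y : ι} (hy : y ∈ C) :
    (if C.erase y = ∅ then 0 else hh V F S (cyc (C.erase y)) v) = φ y + φ (cyc C y) := by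
  by_cases h : C.erase y = ∅
  · rw [if_pos h, cyc_apply_self hy h, CharTwo.add_self_eq_zero]
  · rw [if_neg h, cyc_erase hy]
    exact hφ y (hCS hy) _ (hCS (cyc_apply_mem hy))
      (cyc_apply_ne hy (Finset.nonempty_iff_ne_empty.2 h)).symm

open D81877ZF D81877Z in
theorem ez_e_apply [CharP K 2] (V : Finset ι) (z : Z ι K) (A B : Finset ι) :
    (ez V z + e V z) A B = ∑ x ∈ V,
      ((if x ∈ B then (if x ∈ A then 0 else z (insert x A) B) else z A (insert x B))
        + ∑ y ∈ V.filter (fun y => y < x),
          if y ∈ B ∧ y ∉ A ∧ x ∉ A then z (insert x (insert y A)) (B.erase y) else 0) := by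
  have h1 : ez V z + e V z = ∑ x ∈ V, (g x z + f x (d x (g x z)))
      + ∑ x ∈ V, ∑ y ∈ V.filter (fun y => y < x), f y (d y (d x z)) := by
    unfold ez e
    simp only [LinearMap.add_apply, LinearMap.sum_apply, Module.End.mul_apply]
    have e1 : ∀ x ∈ V, g x z + d x z + f x (g x (d x z)) = (g x z + f x (d x (g x z))) + d x z :=
      fun x _ => by rw [gd_comm x x]; abel
    rw [Finset.sum_congr rfl e1, Finset.sum_add_distrib]
    generalize (∑ x ∈ V, d x z) = S
    generalize (∑ x ∈ V, ∑ y ∈ V.filter (fun y => y < x), f y (d y (d x z))) = R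
    generalize (∑ x ∈ V, (g x z + f x (d x (g x z)))) = Q
    have h2 : S + S = 0 := by
      funext A B
      exact CharTwo.add_self_eq_zero _
    calc Q + S + R + S = Q + R + (S + S) := by abel
      _ = Q + R := by rw [h2, add_zero]
  rw [h1, ← Finset.sum_add_distrib]
  simp only [Finset.sum_apply, Pi.add_apply]
  apply Finset.sum_congr rfl
  intro x _
  congr 1
  · simp only [f_apply, g_apply, d_apply, Finset.notMem_erase, if_false]
    by_cases hB : x ∈ B
    · simp only [hB, if_true, zero_add]
      by_cases hA : x ∈ A
      · simp [hA]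
      · simp only [hA, if_false]
        rw [Finset.insert_erase hB]
    · simp [hB]
  · apply Finset.sum_congr rfl
    intro y hy
    rw [Finset.mem_filter] at hy
    simp only [f_apply, d_apply]
    by_cases hB : y ∈ B
    · by_cases hA : y ∈ A
      · simp [hA]
      · have hne : x ≠ y := fun h => absurd hy.2 (by rw [h]; exact lt_irrefl _)
        by_cases hxA : x ∈ A
        · simp [hB, hA, hxA]
        · simp [hB, hA, hxA, hne]
    · simp [hB]

open D81877ZF D81877Z in
/-- **`ez + e` kills the image of `p`** -/
theorem ez_e_pm [Fintype ι] [CharP K 2] {V : Finset ι} {b : ℕ} {v : WW ι K} (hv : Dm V b v)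
    {A B : Finset ι} (hA : A ⊆ V) (hB : B ⊆ V) : (ez V (pm V v) + e V (pm V v)) A B = 0 := by
  rw [ez_e_apply]
  by_cases hdeg : A.card + B.card = 2 * b
  swap
  · -- wrong degree
    apply Finset.sum_eq_zero
    intro x _
    have h1 : (if x ∈ B then (if x ∈ A then 0 else pm V v (insert x A) B)
        else pm V v A (insert x B)) = 0 := by
      split_ifs with h2 h3
      · rfl
      · apply pm_wrong hv
        rw [Finset.card_insert_of_notMem h3]
        omega
      · apply pm_wrong hv
        rw [Finset.card_insert_of_notMem h2]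
        omega
    rw [h1, zero_add]
    apply Finset.sum_eq_zero
    intro y hy
    rw [Finset.mem_filter] at hy
    split_ifs with h2
    · apply pm_wrong hv
      have hne : x ≠ y := fun h => absurd hy.2 (by rw [h]; exact lt_irrefl _)
      have h3 : x ∉ insert y A := by
        rw [Finset.mem_insert, not_or]
        exact ⟨hne, h2.2.2⟩
      have h4 : 0 < B.card := Finset.card_pos.2 ⟨y, h2.1⟩
      rw [Finset.card_insert_of_notMem h3, Finset.card_insert_of_notMem h2.2.1,
        Finset.card_erase_of_mem h2.1]
      omega
    · rfl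
  -- right degree
  obtain ⟨C, hC⟩ : ∃ C, B \ A = C := ⟨_, rfl⟩
  obtain ⟨F, hF⟩ : ∃ F, A ∩ B = F := ⟨_, rfl⟩
  obtain ⟨S, hS⟩ : ∃ S, (A \ B) ∪ (B \ A) = S := ⟨_, rfl⟩
  have hFV : F ⊆ V := by
    rw [← hF]
    exact Finset.inter_subset_left.trans hA
  have hSV : S ⊆ V := by
    rw [← hS]
    exact Finset.union_subset (Finset.sdiff_subset.trans hA) (Finset.sdiff_subset.trans hB)
  have hFS : Disjoint F S := by
    rw [← hF, ← hS]
    exact disj_sym A B
  have hcard : S.card + 2 * F.card = 2 * b := by
    rw [← hF, ← hS, card_sym, hdeg]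
  have hCS : C ⊆ S := by
    rw [← hC, ← hS]
    exact Finset.subset_union_right
  have hVAB : V \ (F ∪ S) = V \ (A ∪ B) := by
    rw [← hF, ← hS]
    congr 1
    grind
  -- decomposition of the sum
  have hsplit : ∀ T : ι → K, (∀ x ∈ F, T x = 0) →
      ∑ x ∈ V, T x = ∑ x ∈ V \ (F ∪ S), T x + ∑ x ∈ S, T x := by
    intro T hT
    have h1 : V = (V \ (F ∪ S)) ∪ (F ∪ S) :=
      (Finset.sdiff_union_of_subset (Finset.union_subset hFV hSV)).symm
    conv_lhs => rw [h1]
    rw [Finset.sum_union Finset.sdiff_disjoint, Finset.sum_union hFS, Finset.sum_eq_zero hT,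
      zero_add]
  have hFB : ∀ x ∈ F, x ∈ A ∧ x ∈ B := by
    intro x hx
    rw [← hF, Finset.mem_inter] at hx
    exact hx
  rw [hsplit]
  swap
  · intro x hx
    obtain ⟨hxA, hxB⟩ := hFB x hx
    rw [if_pos hxB, if_pos hxA, zero_add]
    apply Finset.sum_eq_zero
    intro y _
    rw [if_neg (fun h => h.2.2 hxA)]
  by_cases hCe : C = ∅
  · -- the cycle is empty
    have hBA : B ⊆ A := by
      rw [← hC] at hCe
      exact Finset.sdiff_eq_empty_iff_subset.1 hCe
    have hEr := erule (K := K) (v := v) hv.prm hFV hSV hFS (1 : Equiv.Perm ι) (fun x _ => rfl)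
    rw [Finset.filter_false_of_mem (by
      intro x _ h
      exact h rfl), Finset.sum_empty, add_zero] at hEr
    have t1 : ∑ x ∈ V \ (F ∪ S),
        ((if x ∈ B then (if x ∈ A then 0 else pm V v (insert x A) B) else pm V v A (insert x B))
        + ∑ y ∈ V.filter (fun y => y < x),
          if y ∈ B ∧ y ∉ A ∧ x ∉ A then pm V v (insert x (insert y A)) (B.erase y) else 0)
        = ∑ x ∈ V \ (F ∪ S), hh V F (insert x S) 1 v := by
      apply Finset.sum_congr rfl
      intro x hx
      rw [hVAB, Finset.mem_sdiff, Finset.mem_union, not_or] at hx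
      obtain ⟨hxV, hxA, hxB⟩ := hx
      rw [if_neg hxB, Finset.sum_eq_zero, add_zero]
      · rw [pm_val hA (Finset.insert_subset hxV hB) (s1 hxA) (s2 hxA) (s3 hxA), hS, hF, hC, hCe,
          if_neg (Finset.insert_ne_empty _ _)]
        have : cyc (insert x (∅ : Finset ι)) = 1 := cyc_singleton x
        rw [this]
      · intro y _
        rw [if_neg (fun h => h.2.1 (hBA h.1))]
    have t2 : ∑ x ∈ S,
        ((if x ∈ B then (if x ∈ A then 0 else pm V v (insert x A) B) else pm V v A (insert x B))
        + ∑ y ∈ V.filter (fun y => y < x),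
          if y ∈ B ∧ y ∉ A ∧ x ∉ A then pm V v (insert x (insert y A)) (B.erase y) else 0)
        = 0 := by
      apply Finset.sum_eq_zero
      intro x hx
      have hxAB : x ∈ A \ B := by
        rw [← hS, hC, hCe, Finset.union_empty] at hx
        exact hx
      have hxA := (Finset.mem_sdiff.1 hxAB).1
      have hxB := (Finset.mem_sdiff.1 hxAB).2
      rw [if_neg hxB, Finset.sum_eq_zero, add_zero]
      · rw [pm_val hA (Finset.insert_subset (hA hxA) hB) (s7 hxAB) (s8 hxAB) (s9 hxAB), hC,
          if_pos hCe]
      · intro y _
        rw [if_neg (fun h => h.2.2 hxA)]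
    rw [t1, t2, add_zero]
    exact hEr
  · -- the cycle is not empty
    have hCn : C.Nonempty := Finset.nonempty_iff_ne_empty.2 hCe
    set p := C.max' hCn with hp
    set m := C.min' hCn with hm
    have hpC : p ∈ C := Finset.max'_mem _ _
    have hmC : m ∈ C := Finset.min'_mem _ _
    have hsp : cyc C p = m := cyc_max hCn
    have hfix : ∀ x, x ∉ S → cyc C x = x := fun x hx => cyc_of_notMem (fun h => hx (hCS h))
    have hMr := mrule (K := K) (v := v) hv.prm hFV hSV hFS (cyc C) hfix (hCS hpC)
    refine Eq.trans ?_ hMr
    -- the sum over the elements of the cycle below `x`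
    have hsumC : ∀ x, x ∉ A → ∀ G : ι → K,
        ∑ y ∈ V.filter (fun y => y < x), (if y ∈ B ∧ y ∉ A ∧ x ∉ A then G y else 0)
          = ∑ y ∈ C.filter (· < x), G y := by
      intro x hxA G
      rw [← Finset.sum_filter]
      apply Finset.sum_congr _ (fun _ _ => rfl)
      ext y
      rw [Finset.mem_filter, Finset.mem_filter, Finset.mem_filter, ← hC, Finset.mem_sdiff]
      constructor
      · rintro ⟨⟨_, h1⟩, h2, h3, _⟩
        exact ⟨⟨h2, h3⟩, h1⟩
      · rintro ⟨⟨h2, h3⟩, h1⟩
        exact ⟨⟨hB h2, h1⟩, h2, h3, hxA⟩
    congr 1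
    · -- the sites outside
      apply Finset.sum_congr rfl
      intro x hx
      rw [hVAB, Finset.mem_sdiff, Finset.mem_union, not_or] at hx
      obtain ⟨hxV, hxA, hxB⟩ := hx
      have hxC : x ∉ C := fun h => hxB (by rw [← hC] at h; exact (Finset.mem_sdiff.1 h).1)
      have hxF : x ∉ F := fun h => hxA (hFB x h).1
      have hxS : x ∉ S := by
        rw [← hS]
        intro h
        rcases Finset.mem_union.1 h with h | h
        · exact hxA (Finset.mem_sdiff.1 h).1
        · exact hxB (Finset.mem_sdiff.1 h).1
      rw [if_neg hxB, hsumC x hxA (fun y => pm V v (insert x (insert y A)) (B.erase y))]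
      have hCS' : C ⊆ insert x S := hCS.trans (Finset.subset_insert _ _)
      obtain ⟨φ, hφ⟩ := exists_pot (K := K) hv (S := insert x S) (F := F)
        (Finset.insert_subset hxV hSV) hFV
        (by
          rw [Finset.disjoint_insert_right]
          exact ⟨hxF, hFS⟩)
        (by
          rw [Finset.card_insert_of_notMem hxS]
          omega)
        (s := cyc C) (cyc_maps hCS')
      have g1 : pm V v A (insert x B) = φ x + φ (nx C x) := by
        rw [pm_val hA (Finset.insert_subset hxV hB) (s1 hxA) (s2 hxA) (s3 hxA), hS, hF, hC,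
          if_neg (Finset.insert_ne_empty _ _), cyc_insert hCn hxC]
        exact hφ x (Finset.mem_insert_self _ _) _ (hCS' (nx_mem hCn x))
          (fun h => hxC (h ▸ nx_mem hCn x))
      have g2 : ∑ y ∈ C.filter (· < x), pm V v (insert x (insert y A)) (B.erase y)
          = φ m + φ (nx C x) := by
        rw [hm, ← tele hCn hxC φ]
        apply Finset.sum_congr rfl
        intro y hy
        rw [Finset.mem_filter] at hy
        have hyBA : y ∈ B \ A := by
          rw [hC]
          exact hy.1
        have hyV : y ∈ V := hB (Finset.mem_sdiff.1 hyBA).1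
        rw [pm_val (Finset.insert_subset hxV (Finset.insert_subset hyV hA))
          ((Finset.erase_subset _ _).trans hB) (s4 hxA hxB hyBA) (s5 hxA hxB hyBA)
          (s6 hxA hxB hyBA), hS, hF, hC]
        exact rem_val hφ hCS' hy.1
      have g3 : hh V F (insert x S) (cyc C * Equiv.swap p x) v = φ m + φ x := by
        rw [Equiv.mul_swap_eq_swap_mul, hsp, hfix x hxS]
        exact hφ m (hCS' hmC) x (Finset.mem_insert_self _ _) (fun h => hxC (h ▸ hmC))
      rw [g1, g2, g3]
      generalize φ x = a
      generalize φ m = c
      generalize φ (nx C x) = w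
      have h2 : w + w = 0 := CharTwo.add_self_eq_zero _
      calc a + w + (c + w) = c + a + (w + w) := by ring
        _ = c + a := by rw [h2, add_zero]
    · -- the sites of `S`
      apply Finset.sum_congr rfl
      intro x hx
      by_cases hxC : x ∈ C
      · -- elements of the cycle
        have hxBA : x ∈ B \ A := by
          rw [hC]
          exact hxC
        have hxB := (Finset.mem_sdiff.1 hxBA).1
        have hxA := (Finset.mem_sdiff.1 hxBA).2
        have hxV := hB hxB
        have hxF : x ∉ F := fun h => hxA (hFB x h).1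
        rw [if_pos hxB, if_neg hxA,
          hsumC x hxA (fun y => pm V v (insert x (insert y A)) (B.erase y)),
          pm_val (Finset.insert_subset hxV hA) hB (s10 hxBA) (s11 hxBA) (s12 hxBA), hS, hF, hC]
        by_cases hCx : C.erase x = ∅
        · -- the cycle is `{x}`
          have hCx' : C = {x} := by
            rw [← Finset.insert_erase hxC, hCx]
            rfl
          have hpx : x = p := by
            have := hpC
            rw [hCx', Finset.mem_singleton] at this
            exact this.symm
          have hmx : m = x := by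
            have := hmC
            rw [hCx', Finset.mem_singleton] at this
            exact this
          rw [if_pos hCx, if_pos ⟨hpx, by rw [hsp, hmx, hpx]⟩,
            if_neg (fun h => h.1 hpx), add_zero, zero_add]
          apply Finset.sum_eq_zero
          intro y hy
          rw [Finset.mem_filter, hCx', Finset.mem_singleton] at hy
          exact absurd hy.2 (by rw [hy.1]; exact lt_irrefl _)
        · have hCxn : (C.erase x).Nonempty := Finset.nonempty_iff_ne_empty.2 hCx
          have hxe : x ∉ C.erase x := Finset.notMem_erase _ _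
          have hsx : cyc C x ≠ x := cyc_apply_ne hxC hCxn
          have hc1 : ¬ (x = p ∧ cyc C p = p) := by
            rintro ⟨h1, h2⟩
            rw [← h1] at h2
            exact hsx h2
          rw [if_neg hCx, if_neg hc1, cyc_erase hxC]
          congr 1
          -- potential on `S - x`
          have hCS' : C.erase x ⊆ S.erase x := Finset.erase_subset_erase _ hCS
          obtain ⟨φ, hφ⟩ := exists_pot (K := K) hv (S := S.erase x) (F := insert x F)
            ((Finset.erase_subset _ _).trans hSV) (Finset.insert_subset hxV hFV)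
            (by
              rw [Finset.disjoint_insert_left]
              exact ⟨Finset.notMem_erase _ _, hFS.mono_right (Finset.erase_subset _ _)⟩)
            (by
              rw [Finset.card_insert_of_notMem hxF, Finset.card_erase_of_mem hx]
              have : 0 < S.card := Finset.card_pos.2 ⟨x, hx⟩
              omega)
            (s := cyc (C.erase x)) (cyc_maps hCS')
          have g2 : ∑ y ∈ C.filter (· < x), pm V v (insert x (insert y A)) (B.erase y)
              = φ ((C.erase x).min' hCxn) + φ (nx (C.erase x) x) := by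
            rw [← tele hCxn hxe φ]
            have hfil : C.filter (· < x) = (C.erase x).filter (· < x) := by
              ext y
              simp only [Finset.mem_filter, Finset.mem_erase]
              constructor
              · rintro ⟨h1, h2⟩
                exact ⟨⟨ne_of_lt h2, h1⟩, h2⟩
              · rintro ⟨⟨_, h1⟩, h2⟩
                exact ⟨h1, h2⟩
            rw [hfil]
            apply Finset.sum_congr rfl
            intro y hy
            rw [Finset.mem_filter, Finset.mem_erase] at hy
            have hyBA : y ∈ B \ A := by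
              rw [hC]
              exact hy.1.2
            have hyV : y ∈ V := hB (Finset.mem_sdiff.1 hyBA).1
            rw [pm_val (Finset.insert_subset hxV (Finset.insert_subset hyV hA))
              ((Finset.erase_subset _ _).trans hB) (s13 hxBA hyBA hy.1.1)
              (s14 hxBA hyBA hy.1.1) (s15 hxBA hyBA hy.1.1), hS, hF, hC]
            exact rem_val hφ hCS' (Finset.mem_erase.2 hy.1)
          rw [g2]
          have hnx : nx (C.erase x) x = cyc C x := (cyc_apply hxC).symm
          rw [hnx]
          by_cases hxp : x = p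
          · rw [if_neg (fun h => h.1 hxp)]
            have h1 : cyc C x = m := by rw [hxp, hsp]
            have h2 : (C.erase x).min' hCxn = m := by
              apply le_antisymm
              · apply Finset.min'_le
                rw [Finset.mem_erase]
                refine ⟨?_, hmC⟩
                rw [← h1]
                exact hsx
              · apply Finset.le_min'
                intro z hz
                exact Finset.min'_le C z (Finset.mem_erase.1 hz).2
            rw [h1, h2, CharTwo.add_self_eq_zero]
          · by_cases hxm : m = x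
            · rw [if_neg (fun h => h.2.1 (by rw [hsp, hxm]))]
              have h2 : (C.erase x).min' hCxn = cyc C x := by
                rw [← hnx]
                unfold nx
                have h3 : (C.erase x).filter (x < ·) = C.erase x := by
                  rw [Finset.filter_true_of_mem]
                  intro y hy
                  rw [Finset.mem_erase] at hy
                  refine lt_of_le_of_ne ?_ hy.1.symm
                  rw [← hxm]
                  exact Finset.min'_le C y hy.2
                simp only [h3, hCxn, dif_pos]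
              rw [h2, CharTwo.add_self_eq_zero]
            · have h2 : (C.erase x).min' hCxn = m := by
                apply le_antisymm
                · apply Finset.min'_le
                  rw [Finset.mem_erase]
                  exact ⟨hxm, hmC⟩
                · apply Finset.le_min'
                  intro z hz
                  exact Finset.min'_le C z (Finset.mem_erase.1 hz).2
              have hmp : m ≠ cyc C x := by
                rw [← hsp]
                intro h
                exact hxp ((cyc C).injective h).symm
              rw [if_pos ⟨hxp, by rw [hsp]; exact hxm, hsx⟩, h2, ← cyc_erase hxC,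
                Equiv.mul_swap_eq_swap_mul]
              have e1 : cyc (C.erase x) p = m := by
                rw [cyc_erase hxC, Equiv.Perm.mul_apply, hsp]
                exact Equiv.swap_apply_of_ne_of_ne hxm hmp
              have e2 : cyc (C.erase x) ((cyc C).symm x) = cyc C x := by
                rw [cyc_erase hxC, Equiv.Perm.mul_apply, Equiv.apply_symm_apply,
                  Equiv.swap_apply_left]
              rw [e1, e2]
              symm
              apply hφ
              · exact hCS' (Finset.mem_erase.2 ⟨hxm, hmC⟩)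
              · exact hCS' (Finset.mem_erase.2 ⟨hsx, cyc_apply_mem hxC⟩)
              · exact hmp
      · -- fixed points
        have hxAB : x ∈ A \ B := by
          rw [← hS, hC] at hx
          exact (Finset.mem_union.1 hx).resolve_right hxC
        have hxA := (Finset.mem_sdiff.1 hxAB).1
        have hxB := (Finset.mem_sdiff.1 hxAB).2
        have hsx : cyc C x = x := cyc_of_notMem hxC
        have hxp : x ≠ p := fun h => hxC (h ▸ hpC)
        rw [if_neg hxB, Finset.sum_eq_zero, add_zero]
        · rw [pm_val hA (Finset.insert_subset (hA hxA) hB) (s7 hxAB) (s8 hxAB) (s9 hxAB), hS, hF,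
            hC, if_neg hCe, if_neg (fun h => hxp h.1), if_neg (fun h => h.2.2 hsx), add_zero, hsx,
            Equiv.swap_self]
          rfl
        · intro y _
          rw [if_neg (fun h => h.2.2 hxA)]

open D81877ZF D81877Z in
/-- the orthogonality certificate for the image of `p` -/
theorem B0_Xi_pm [Fintype ι] [CharP K 2] {V : Finset ι} {b : ℕ} {v : WW ι K} (hv : Dm V b v)
    (u : Z ι K) : B0 V (Xi V u) (pm V v) = 0 := by
  rw [B0_Xi]
  unfold B0
  apply Finset.sum_eq_zero
  intro A hA
  apply Finset.sum_eq_zero
  intro B hB
  rw [ez_e_pm hv (Finset.mem_powerset.1 hB) (Finset.mem_powerset.1 hA), mul_zero]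

end MP_d81877_alP15
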