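import Mathlib
import Pool.Agent.Lib.MP_d81877_alP15.Ez

/-!
MP_d81877_al, part D, T1: `D` kills the image of the map `p`.
-/

namespace MP_d81877_alP15

open Finset Function MP_d81877_alI MP_d81877_alP

variable {ι K : Type*} [LinearOrder ι] [Field K]

theorem r1 {A B : Finset ι} {x : ι} (_h : x ∈ B \ A) :
    insert x A ∩ B.erase x = A ∩ B := by grind
theorem r2 {A B : Finset ι} {x : ι} (_h : x ∈ B \ A) :
    B.erase x \ insert x A = (B \ A).erase x := by grind
theorem r3 {A B : Finset ι} {x : ι} (_h : x ∈ B \ A) :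
    (insert x A \ B.erase x) ∪ (B.erase x \ insert x A) = (A \ B) ∪ (B \ A) := by grind

open D81877ZF in
/-- **`D` kills the image of `p`** -/
theorem D_pm [Fintype ι] [CharP K 2] {V : Finset ι} {b : ℕ} {v : WW ι K} (hv : Dm V b v) :
    D V (pm V v) = 0 := by
  funext A B
  have h1 : D V (pm V v) A B = ∑ x ∈ V,
      (if x ∈ B then (if x ∈ A then 0 else pm V v (insert x A) (B.erase x)) else 0) := by
    unfold D
    simp only [LinearMap.sum_apply, Module.End.mul_apply, Finset.sum_apply, f_apply, d_apply]
  rw [h1]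
  change _ = (0 : K)
  by_cases hAB : A ⊆ V ∧ B ⊆ V
  swap
  · apply Finset.sum_eq_zero
    intro x hx
    split_ifs with h2 h3
    · rfl
    · unfold pm
      rw [if_pos]
      right
      intro h4
      apply hAB
      constructor
      · intro y hy
        exact h4 (Finset.mem_union_left _ (Finset.mem_insert_of_mem hy))
      · intro y hy
        by_cases hyx : y = x
        · rw [hyx]; exact hx
        · exact h4 (Finset.mem_union_right _ (Finset.mem_erase.2 ⟨hyx, hy⟩))
    · rfl
  obtain ⟨hA, hB⟩ := hAB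
  by_cases hdeg : A.card + B.card = 2 * b + 1
  swap
  · apply Finset.sum_eq_zero
    intro x _
    split_ifs with h2 h3
    · rfl
    · apply pm_wrong hv
      have h4 : 0 < B.card := Finset.card_pos.2 ⟨x, h2⟩
      rw [Finset.card_insert_of_notMem h3, Finset.card_erase_of_mem h2]
      omega
    · rfl
  obtain ⟨φ, hφ⟩ := exists_pot (K := K) hv (S := (A \ B) ∪ (B \ A)) (F := A ∩ B)
    (Finset.union_subset (Finset.sdiff_subset.trans hA) (Finset.sdiff_subset.trans hB))
    (Finset.inter_subset_left.trans hA) (disj_sym A B) (by rw [card_sym, hdeg])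
    (s := cyc (B \ A)) (cyc_maps Finset.subset_union_right)
  have h2 : ∑ x ∈ V,
      (if x ∈ B then (if x ∈ A then 0 else pm V v (insert x A) (B.erase x)) else 0)
      = ∑ x ∈ B \ A, (φ x + φ (cyc (B \ A) x)) := by
    have h3 : ∀ x ∈ V, (if x ∈ B then (if x ∈ A then 0 else pm V v (insert x A) (B.erase x))
        else 0) = if x ∈ B \ A then (φ x + φ (cyc (B \ A) x)) else 0 := by
      intro x hx
      by_cases h4 : x ∈ B \ A
      · have h5 := Finset.mem_sdiff.1 h4
        rw [if_pos h5.1, if_neg h5.2, if_pos h4,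
          pm_val (Finset.insert_subset hx hA) ((Finset.erase_subset _ _).trans hB) (r1 h4) (r2 h4)
            (r3 h4)]
        exact rem_val hφ Finset.subset_union_right h4
      · rw [if_neg h4]
        rw [Finset.mem_sdiff, not_and, not_not] at h4
        by_cases h5 : x ∈ B
        · rw [if_pos h5, if_pos (h4 h5)]
        · rw [if_neg h5]
    rw [Finset.sum_congr rfl h3, ← Finset.sum_filter]
    apply Finset.sum_congr _ (fun _ _ => rfl)
    ext x
    rw [Finset.mem_filter]
    exact ⟨fun h => h.2, fun h => ⟨hB (Finset.mem_sdiff.1 h).1, h⟩⟩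
  rw [h2, Finset.sum_add_distrib]
  have h3 : ∑ x ∈ B \ A, φ (cyc (B \ A) x) = ∑ x ∈ B \ A, φ x := by
    have h4 := image_perm_of_maps (S := B \ A) (s := cyc (B \ A))
      (cyc_maps (Finset.Subset.refl _))
    conv_rhs => rw [← h4]
    rw [Finset.sum_image (fun x _ y _ h => (cyc (B \ A)).injective h)]
  rw [h3, CharTwo.add_self_eq_zero]

end MP_d81877_alP15
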